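import Pool.Agent.H10.Sharp
import Pool.Agent.H10.BF

namespace Pool.Agent.Results.MP_d71e54_al.NoAction
open Pool.Agent.H10.Sharp FirstOrder Language Structure Equiv Finset

abbrev Q := Finset (Option ℕ × Option ℕ × Option ℕ × Option ℕ)

def code (n : ℕ) : Q := (Encodable.decode (α := Q) n.unpair.1).getD ∅

theorem code_surj (Z : Q) (N : ℕ) : ∃ n, N ≤ n ∧ code n = Z :=
  ⟨Nat.pair (Encodable.encode Z) N, Nat.right_le_pair _ _, by simp [code]⟩

def rd (m t : ℕ) : Option ℕ := if t = m then none else some t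

def rho (m a b c d : ℕ) : Prop := (rd m a, rd m b, rd m c, rd m d) ∈ code m

def R4 (a b c d : ℕ) : Prop := (a ≠ b ∧ a ≠ c ∧ a ≠ d ∧ b ≠ c ∧ b ≠ d ∧ c ≠ d) ∧
  (a < b ↔ rho (max (max a b) (max c d)) (min a b) (max a b) (min c d) (max c d))

theorem R4.s1 (a b c d : ℕ) : R4 a b c d ↔ R4 a b d c := by
  rw [R4, R4, max_comm c d, min_comm c d]; tauto

theorem R4.s2 {a b c d : ℕ} (h : a ≠ b ∧ a ≠ c ∧ a ≠ d ∧ b ≠ c ∧ b ≠ d ∧ c ≠ d) :
    R4 b a c d ↔ ¬ R4 a b c d := by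
  have : b < a ↔ ¬ a < b := by omega
  rw [R4, R4, max_comm b a, min_comm b a, this]; tauto

inductive Rel : ℕ → Type
  | r : Rel 4

def L : FirstOrder.Language.{0, 0} := ⟨fun _ => Empty, Rel⟩

instance : L.IsRelational := fun _ => inferInstanceAs (IsEmpty Empty)

instance : L.Structure ℕ where
  funMap f := Empty.elim f
  RelMap r x := match r with | .r => R4 (x 0) (x 1) (x 2) (x 3)

theorem same {ι : Type} {a b : ι → ℕ} : SameQF L a b ↔
    ∀ i j k l, R4 (a i) (a j) (a k) (a l) ↔ R4 (b i) (b j) (b k) (b l) :=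
  ⟨fun h i j k l => h 4 .r ![i, j, k, l], fun h _ R t => by cases R; exact h _ _ _ _⟩

def P (D : Finset ℕ) (π : Perm ℕ) : Prop :=
  ∀ a ∈ D, ∀ b ∈ D, ∀ c ∈ D, ∀ d ∈ D, R4 a b c d ↔ R4 (π a) (π b) (π c) (π d)

theorem P.symm {D π} (h : P D π) : P (D.image π) π⁻¹ := by
  simp only [P, forall_mem_image, Perm.coe_inv, symm_apply_apply]
  exact fun a ha b hb c hc d hd => (h a ha b hb c hc d hd).symm

theorem ep {D π} (h : P D π) (x : ℕ) (hx : x ∉ D) (V : Finset ℕ) :
    ∃ π', P (insert x D) π' ∧ (∀ w ∈ D, π' w = π w) ∧ π' x ∉ V := by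
  classical
  let O := insert none ((D.image π).image some)
  let q : Option ℕ → ℕ := fun z => z.elim x π.symm
  obtain ⟨n, h1, h2⟩ := code_surj ((O ×ˢ O ×ˢ O ×ˢ O).filter fun z =>
    R4 (q z.1) (q z.2.1) (q z.2.2.1) (q z.2.2.2)) ((V ∪ D.image π).sup id + 1)
  have n1 : ∀ w ∈ V ∪ D.image π, w < n := fun w hw => by
    have : w ≤ _ := le_sup (f := id) hw
    omega
  have n2 : ∀ w ∈ D, π w < n := fun w hw => n1 _ (mem_union_right _ (mem_image_of_mem _ hw))
  let ρ : Perm ℕ := π.trans (swap (π x) n)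
  have p1 : ∀ w ∈ D, ρ w = π w := fun w hw => swap_apply_of_ne_of_ne
    (fun h => hx (π.injective h ▸ hw)) (n2 w hw).ne
  have p2 : ρ x = n := swap_apply_left _ _
  have p3 : ∀ w ∈ insert x D, rd n (ρ w) ∈ O ∧ q (rd n (ρ w)) = w ∧ ρ w ≤ n := fun w hw => by
    rcases mem_insert.1 hw with rfl | hw
    · simp [p2, rd, O, q]
    · simp [p1 w hw, rd, (n2 w hw).ne, (n2 w hw).le, O, q, hw]
  have p4 : ∀ a ∈ insert x D, ∀ b ∈ insert x D, ∀ c ∈ insert x D, ∀ d ∈ insert x D,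
      rho n (ρ a) (ρ b) (ρ c) (ρ d) ↔ R4 a b c d := fun a ha b hb c hc d hd => by
    simp only [rho, h2, mem_filter, mem_product, p3 a ha, p3 b hb, p3 c hc, p3 d hd, true_and]
  refine ⟨ρ, fun a ha b hb c hc d hd => ?_, p1, fun h => (n1 _ (mem_union_left _ h)).ne p2⟩
  by_cases e : a ≠ x ∧ b ≠ x ∧ c ≠ x ∧ d ≠ x
  · have f := fun w hw h => (@mem_insert _ _ D w x).1 hw |>.resolve_left h
    rw [p1 a (f a ha e.1), p1 b (f b hb e.2.1), p1 c (f c hc e.2.2.1), p1 d (f d hd e.2.2.2)]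
    exact h a (f a ha e.1) b (f b hb e.2.1) c (f c hc e.2.2.1) d (f d hd e.2.2.2)
  by_cases e1 : a ≠ b ∧ a ≠ c ∧ a ≠ d ∧ b ≠ c ∧ b ≠ d ∧ c ≠ d
  swap
  · exact iff_of_false (fun h => e1 h.1) fun h => e1 (by simpa using h.1)
  have e2 : max (max (ρ a) (ρ b)) (max (ρ c) (ρ d)) = n := by
    have := (p3 a ha).2.2
    have := (p3 b hb).2.2
    have := (p3 c hc).2.2
    have := (p3 d hd).2.2
    simp only [not_and_or, not_not] at e
    rcases e with rfl | rfl | rfl | rfl <;> omega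
  have e3 := R4.s2 e1
  have e4 := ρ.injective.ne e1.1
  rw [R4.eq_1 (ρ a), e2, and_iff_right (by simpa using e1)]
  rcases le_total (ρ a) (ρ b) with u | u <;> rcases le_total (ρ c) (ρ d) with v | v <;>
    simp only [u, v, min_eq_left, min_eq_right, max_eq_left, max_eq_right, p4, ha, hb, hc, hd,
      R4.s1 _ _ d c, e3, u.lt_iff_ne, u.not_gt] <;> tauto

theorem ep' (D π c) (h : P D π) : ∃ π', P (insert c D) π' ∧ ∀ w ∈ D, π' w = π w := by
  by_cases hc : c ∈ D
  · exact ⟨π, by rwa [insert_eq_of_mem hc], fun _ _ => rfl⟩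
  · exact (ep h c hc ∅).imp fun _ h => ⟨h.1, h.2.1⟩

theorem epU (V U : Finset ℕ) {D π} (h : P D π) :
    ∃ π', P (U ∪ D) π' ∧ (∀ w ∈ D, π' w = π w) ∧ ∀ w ∈ U, w ∉ D → π' w ∉ V := by
  induction U using Finset.induction_on with
  | empty => exact ⟨π, by simpa, fun _ _ => rfl, by simp⟩
  | insert x U _ ih =>
    obtain ⟨π1, a1, a2, a3⟩ := ih
    by_cases hx : x ∈ U ∪ D
    · refine ⟨π1, by rwa [insert_union, insert_eq_of_mem hx], a2, fun w hw h => a3 w ?_ h⟩
      rcases mem_insert.1 hw with rfl | hw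
      exacts [(mem_union.1 hx).resolve_right h, hw]
    obtain ⟨π2, b1, b2, b3⟩ := ep a1 x hx V
    refine ⟨π2, by rwa [insert_union], fun w hw => (b2 w (by simp [hw])).trans (a2 w hw),
      fun w hw h => ?_⟩
    rcases mem_insert.1 hw with rfl | hw
    exacts [b3, b2 w (by simp [hw]) ▸ a3 w hw h]

theorem start {ι : Type} [Fintype ι] {a b : ι → ℕ} (ha : Function.Injective a)
    (hb : Function.Injective b) (h : SameQF L a b) :
    ∃ π, P (univ.image a) π ∧ ∀ i, π (a i) = b i := by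
  obtain ⟨π, hπ⟩ := Perm.exists_extending_pair a b ha hb
  exact ⟨π, by simpa [P, hπ] using same.1 h, hπ⟩

theorem uh : UH L ℕ := fun n a b h => by
  obtain ⟨π, h1, h2⟩ := start a.injective b.injective h
  obtain ⟨g, g1, g2⟩ := Pool.Agent.H10.BF.bf (fun _ _ => P.symm) ep' h1
  refine ⟨⟨g, fun f => Empty.elim f, fun R x => ?_⟩, fun i => (g1 _ (by simp)).trans (h2 i)⟩
  obtain ⟨D, π, a1, a2, a3⟩ := g2 (univ.image x)
  have : ∀ i, x i ∈ D := fun i => a1 (by simp)
  cases R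
  change R4 (g _) (g _) (g _) (g _) ↔ R4 _ _ _ _
  simp only [a3 _ (this _)]
  exact (a2 _ (this _) _ (this _) _ (this _) _ (this _)).symm

theorem sap : SAP L ℕ := by
  rintro A B C _ _ _ _ _ ⟨jB⟩ ⟨jC⟩ f g
  haveI := Finite.of_injective f f.injective
  haveI := Fintype.ofFinite A
  haveI := Fintype.ofFinite B
  haveI := Fintype.ofFinite C
  obtain ⟨π, h1, h2⟩ := start (jB.comp f).injective (jC.comp g).injective fun n R t =>
    ((jB.comp f).map_rel R t).trans ((jC.comp g).map_rel R t).symm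
  obtain ⟨ρ, a1, a2, a3⟩ := epU (univ.image jC) (univ.image jB) h1
  let S := sub (L := L) (M := ℕ) ↑((univ.image fun b => ρ (jB b)) ∪ univ.image jC : Finset ℕ)
  let u : B ↪[L] ℕ := ⟨⟨fun b => ρ (jB b), ρ.injective.comp jB.injective⟩, fun f => Empty.elim f,
    fun R x => (by
      cases R
      exact (a1 _ (by simp) _ (by simp) _ (by simp) _ (by simp)).symm :
        RelMap R (fun i => ρ (jB (x i))) ↔ RelMap R (jB ∘ x)).trans (jB.map_rel R x)⟩
  refine ⟨S, inferInstance, (Finset.finite_toSet _).to_subtype, ⟨S.subtype⟩,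
    u.codRestrict S fun b => mem_union_left _ (mem_image_of_mem _ (mem_univ b)),
    jC.codRestrict S fun b => mem_union_right _ (mem_image_of_mem _ (mem_univ b)),
    fun a => Subtype.ext ((a2 _ (mem_image_of_mem _ (mem_univ a))).trans (h2 a)), fun b c h => ?_⟩
  by_contra hb
  refine a3 (jB b) (by simp) (fun h => hb ?_) (mem_image.2 ⟨c, mem_univ c, (congrArg Subtype.val h).symm⟩)
  obtain ⟨a, -, e⟩ := mem_image.1 h
  exact ⟨a, jB.injective e⟩

theorem result : ∃ (L : FirstOrder.Language.{0, 0}) (_ : L.IsRelational) (M : Type)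
    (_ : L.Structure M) (_ : Countable M) (_ : Infinite M), UH L M ∧ SAP L M ∧
    ∀ (G : Type) [Group G] [MulAction G M], ¬ Sharp L M G 2 := by
  refine ⟨L, inferInstance, ℕ, inferInstance, inferInstance, inferInstance, uh, sap, ?_⟩
  rintro G _ _ ⟨h1, h2⟩
  let a : Fin 2 ↪ ℕ := ⟨Fin.val, Fin.val_injective⟩
  obtain ⟨g, hg, -⟩ := h2 a ((swap 0 1).toEmbedding.trans a) (same.2 fun i j k l => by
    refine iff_of_false (fun h => ?_) fun h => ?_ <;> have := h.1 <;> clear h <;>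
      revert this i j k l <;> decide)
  have g0 : g • 0 = 1 := hg 0
  have g1 : g • 1 = 0 := hg 1
  have g2 : ∀ x : ℕ, g • g • x = x := fun x => by
    rw [← mul_smul, (h2 a a fun _ _ _ => Iff.rfl).unique (y₁ := g * g) (y₂ := 1) (fun i => by
      fin_cases i <;> simp [a, mul_smul, g0, g1]) (by simp), one_smul]
  have k : ∀ c d, 2 ≤ c → 2 ≤ d → c ≠ d → ¬ (R4 0 1 c d ↔ R4 1 0 c d) := fun c d _ _ _ => by
    rw [R4.s2 (a := 0) (by omega)]; tauto
  have k1 : ∀ c, 2 ≤ c → g • c = c := fun c hc => by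
    by_contra hne
    have := same.1 (h1 g) 0 1 c (g • c)
    simp only [id, g0, g1, g2, R4.s1 _ _ (g • c) c] at this
    refine k c (g • c) hc ?_ (Ne.symm hne) this
    have a1 : g • c ≠ 0 := fun e => by have := g2 c; rw [e, g0] at this; omega
    have a2 : g • c ≠ 1 := fun e => by have := g2 c; rw [e, g1] at this; omega
    omega
  have := same.1 (h1 g) 0 1 2 3
  simp only [id, g0, g1, k1 2 le_rfl, k1 3 (by omega)] at this
  exact k 2 3 le_rfl (by omega) (by omega) this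

end Pool.Agent.Results.MP_d71e54_al.NoAction
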